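import Pool.Agent.H93.GT.Targets
import Pool.Agent.H18.SC.CNB

/-! Module GSZ: sizes of the positions. -/

set_option autoImplicit false

open Pool.Agent.H93.GT Pool.Agent.H87.Synth Pool.Agent.H85.SC Finset
open Pool.Agent.H93.ET (sg jj iE iA T_KKL T_CUT T_BRK T_SER T_CRI)

namespace Pool.Agent.H35.GT

theorem gsz (h1 : T_PRE) : T_GSZ := by
  intro d P
  obtain ⟨-, hps, hsl⟩ := h1
  have hPP : ∀ s : Finset ℕ, 1 ≤ ∏ j ∈ s, PP j := fun s =>
    Nat.succ_le_of_lt (Finset.prod_pos fun j _ => Pool.Agent.H18.SC.PP_pos j)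
  have hQ : ∀ r, 4 ^ (r + 2) ≤ QQ r := by
    intro r
    unfold QQ
    calc 4 ^ (r + 2) = 4 ^ (r + 2) * 1 := (mul_one _).symm
      _ ≤ _ := Nat.mul_le_mul_left _ (hPP _)
  have hQ16 : ∀ r, 16 ≤ QQ r := by
    intro r
    refine le_trans ?_ (hQ r)
    rw [pow_add]
    have : 1 ≤ 4 ^ r := Nat.one_le_pow _ _ (by norm_num)
    omega
  have hLge : ∀ r, (6 * QQ r) ^ 2 ≤ P.L r := fun r => Nat.le_of_dvd (P.hL r).1 (P.hLQ r)
  have hXge : ∀ r, (6 * QQ r) ^ 2 ≤ P.X r := fun r => (hLge r).trans (P.hL r).2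
  have hX0 : ∀ r, 0 < P.X r := fun r => lt_of_lt_of_le (P.hL r).1 (P.hL r).2
  have hstepL : ∀ r, 1024 * P.X r ≤ P.L (r + 1) := by
    intro r
    refine le_trans (Nat.mul_le_mul_right _ ?_) (P.hXL r)
    have h := hQ16 (r + 1)
    nlinarith
  have hstep : ∀ r, 1024 * P.X r ≤ P.X (r + 1) := fun r => (hstepL r).trans (P.hL (r + 1)).2
  have hmono : Monotone P.X := monotone_nat_of_le_succ fun r => by
    have := hstep r
    omega
  have hlt : ∀ r r', r < r' → 1024 * P.X r ≤ P.X r' ∧ 1024 * P.X r ≤ P.L r' := by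
    intro r r' h
    obtain ⟨k, rfl⟩ : ∃ k, r' = k + 1 := ⟨r' - 1, by omega⟩
    have hk : P.X r ≤ P.X k := hmono (by omega)
    have h2 := hstepL k
    have h3 := (P.hL (k + 1)).2
    exact ⟨by omega, by omega⟩
  refine ⟨hX0, hstep, hlt, ?_, ?_, ?_⟩
  · intro r
    constructor
    · have h4 : (4 : ℕ) ∣ QQ r := by
        unfold QQ
        exact Dvd.dvd.mul_right (dvd_pow_self 4 (by omega)) _
      exact (h4.trans (Dvd.intro_left 3 rfl)).trans (P.hXQ r)
    · have h2 : r < 4 ^ (r + 2) := by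
        have : r < 4 ^ r := Nat.lt_pow_self (by norm_num)
        have h3 : 4 ^ r ≤ 4 ^ (r + 2) := Nat.pow_le_pow_right (by norm_num) (by omega)
        omega
      have h3 := hQ r
      have h4 := hXge r
      have h5 : QQ r ≤ (6 * QQ r) ^ 2 := by nlinarith
      omega
  · intro n i hv
    obtain ⟨hs1, hs2⟩ := hsl n i hv
    have hM : Mo n ∣ 4 ^ (slot n i + 2) := by
      unfold Mo
      exact pow_dvd_pow 4 (by omega)
    have hP : PP (lvl n i) ∣ ∏ j ∈ Finset.range (slot n i + 1), PP j :=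
      Finset.dvd_prod_of_mem _ (Finset.mem_range.mpr (by omega))
    have hMP : Mo n * PP (lvl n i) ∣ QQ (slot n i) := by
      unfold QQ
      exact mul_dvd_mul hM hP
    have h6 : 6 * Mo n * PP (lvl n i) ∣ 6 * QQ (slot n i) := by
      rw [mul_assoc]
      exact mul_dvd_mul_left 6 hMP
    constructor
    · exact (h6.trans (dvd_pow_self _ (by norm_num))).trans (P.hLQ _)
    · exact Nat.le_of_dvd (P.hL _).1 ((pow_dvd_pow_of_dvd h6 2).trans (P.hLQ _))
  · intro n i hv hi
    obtain ⟨h1, h2, h3, -, -⟩ := hps n i hv hi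
    have hXX := (hlt _ _ h1).1
    refine ⟨?_, ?_, hXX⟩
    · have ha : 4 ^ (Nat.size n + 1) ≤ 4 ^ (ps n i + 2) :=
        Nat.pow_le_pow_right (by norm_num) (by omega)
      have hb := hQ (ps n i)
      have hc := hXge (ps n i)
      have hd := hQ16 (ps n i)
      have he : 40 * QQ (ps n i) ≤ (6 * QQ (ps n i)) ^ 2 := by nlinarith
      unfold Mo
      omega
    · rcases Nat.eq_zero_or_pos (P.N n i) with h0 | h0
      · exfalso
        have e0 := P.hb0 n i hv hi
        have eN := P.hbN n i hv hi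
        rw [h0] at eN
        have hp := hX0 (ps n i)
        omega
      · exact h0

end Pool.Agent.H35.GT
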